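import Mathlib
import Pool.Agent.H71.EQ.Targets

/-!
# Board eqr_modules (MP_7ecdd4_nt), row SMR: tuples with small radical
-/

set_option autoImplicit false

open Pool.Agent.H38.AE.Statement Pool.Agent.H38.AT MeasureTheory Filter
open scoped Topology

namespace Pool.Agent.H67.EQ

open Pool.Agent.H71.EQ

/-- SMR: tuples with small radical. -/
theorem pf_SMR (h1 : T_CTB) : T_SMR := by
  intro k hk
  obtain ⟨ε₀, C, hε₀, hC, hX⟩ := h1 k hk
  have hnu : 0 ≤ nu k := by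
    unfold nu
    positivity
  refine ⟨ε₀ / 2, C, by positivity, hC, fun κ hκ _ => ?_⟩
  have ha : 0 < ε₀ / 2 := by positivity
  have h2 : Tendsto (fun X : ℝ => X ^ (ε₀ / 2)) atTop atTop := tendsto_rpow_atTop ha
  filter_upwards [h2.eventually_ge_atTop (κ ^ (-(nu k + ε₀))), eventually_ge_atTop (1 / κ),
    eventually_gt_atTop (0 : ℝ)] with X hX1 hX2 hX0
  have h3 : 1 ≤ κ * X := by
    rw [div_le_iff₀ hκ] at hX2
    linarith [mul_comm X κ]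
  have h4 : X ^ (nu k + ε₀ / 2) ≤ (κ * X) ^ (nu k + ε₀) := by
    rw [Real.mul_rpow hκ.le hX0.le]
    have e1 : X ^ (nu k + ε₀) = X ^ (nu k + ε₀ / 2) * X ^ (ε₀ / 2) := by
      rw [← Real.rpow_add hX0]
      congr 1
      ring
    have e2 : κ ^ (nu k + ε₀) * κ ^ (-(nu k + ε₀)) = 1 := by
      rw [← Real.rpow_add hκ, add_neg_cancel, Real.rpow_zero]
    have h5 : 1 ≤ κ ^ (nu k + ε₀) * X ^ (ε₀ / 2) := by
      rw [← e2]
      exact mul_le_mul_of_nonneg_left hX1 (Real.rpow_nonneg hκ.le _)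
    rw [e1]
    calc X ^ (nu k + ε₀ / 2) = X ^ (nu k + ε₀ / 2) * 1 := by ring
      _ ≤ X ^ (nu k + ε₀ / 2) * (κ ^ (nu k + ε₀) * X ^ (ε₀ / 2)) :=
          mul_le_mul_of_nonneg_left h5 (Real.rpow_nonneg hX0.le _)
      _ = κ ^ (nu k + ε₀) * (X ^ (nu k + ε₀ / 2) * X ^ (ε₀ / 2)) := by ring
  obtain ⟨h6, h7⟩ := hX (κ * X) h3
  have hsub : {x : Fin (k + 1) → ℤ | Admissible x ∧ (rd x : ℝ) ≤ κ * X ∧
      (height x : ℝ) ≤ X ^ (nu k + ε₀ / 2)} ⊆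
      {x : Fin (k + 1) → ℤ | Admissible x ∧ (rd x : ℝ) ≤ κ * X ∧
      (height x : ℝ) ≤ (κ * X) ^ (nu k + ε₀)} :=
    fun x hx => ⟨hx.1, hx.2.1, hx.2.2.trans h4⟩
  refine ⟨h6.subset hsub, le_trans ?_ h7⟩
  exact_mod_cast Set.ncard_le_ncard hsub h6

end Pool.Agent.H67.EQ
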